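import Mathlib

set_option autoImplicit false

/-!
# Pure-injective dimension of Banach spaces: definitions
-/

namespace Pool.Agent.Helper56.Pid

/-- An exact sequence `0 → X → Q 0 → Q 1 → Q 2 → ⋯` of Banach spaces and bounded operators. -/
structure Coresolution (𝕜 : Type) [RCLike 𝕜] (X : Type) [NormedAddCommGroup X]
    [NormedSpace 𝕜 X] where
  /-- the terms -/
  Q : ℕ → Type
  [ng : ∀ i, NormedAddCommGroup (Q i)]
  [ns : ∀ i, NormedSpace 𝕜 (Q i)]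
  [cs : ∀ i, CompleteSpace (Q i)]
  /-- the differentials -/
  d : ∀ i, Q i →L[𝕜] Q (i + 1)
  /-- the augmentation -/
  η : X →L[𝕜] Q 0
  inj : Function.Injective η
  exact_zero : ∀ x : Q 0, d 0 x = 0 ↔ ∃ y, η y = x
  exact : ∀ i, ∀ x : Q (i + 1), d (i + 1) x = 0 ↔ ∃ y, d i y = x

attribute [instance] Coresolution.ng Coresolution.ns Coresolution.cs

/-- The canonical image of `E` in its bidual is complemented: there is a bounded operator from
the bidual to `E` which is a left inverse of the canonical embedding. -/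
def ComplBidual (𝕜 : Type) [RCLike 𝕜] (E : Type) [NormedAddCommGroup E] [NormedSpace 𝕜 E] :
    Prop :=
  ∃ P : StrongDual 𝕜 (StrongDual 𝕜 E) →L[𝕜] E,
    ∀ x : E, P (NormedSpace.inclusionInDoubleDual 𝕜 E x) = x

/-- The dual complex `0 ← X^* ← (Q 0)^* ← (Q 1)^* ← ⋯` is homotopic to zero through
bounded operators. -/
def DualContractible {𝕜 : Type} [RCLike 𝕜] {X : Type} [NormedAddCommGroup X]
    [NormedSpace 𝕜 X] (R : Coresolution 𝕜 X) : Prop :=
  ∃ (h0 : (X →L[𝕜] 𝕜) →L[𝕜] (R.Q 0 →L[𝕜] 𝕜))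
    (h : ∀ i, (R.Q i →L[𝕜] 𝕜) →L[𝕜] (R.Q (i + 1) →L[𝕜] 𝕜)),
    (∀ x : X →L[𝕜] 𝕜, (h0 x).comp R.η = x) ∧
    (∀ f : R.Q 0 →L[𝕜] 𝕜, h0 (f.comp R.η) + (h 0 f).comp (R.d 0) = f) ∧
    ∀ i, ∀ f : R.Q (i + 1) →L[𝕜] 𝕜,
      h i (f.comp (R.d i)) + (h (i + 1) f).comp (R.d (i + 1)) = f

/-- `X` has a pure-injective resolution `0 → X → Q 0 → ⋯ → Q n → 0`. -/
def HasPidRes (𝕜 : Type) [RCLike 𝕜] (X : Type) [NormedAddCommGroup X] [NormedSpace 𝕜 X]
    (n : ℕ) : Prop :=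
  ∃ R : Coresolution 𝕜 X, DualContractible R ∧ (∀ i, ComplBidual 𝕜 (R.Q i)) ∧
    ∀ i, n < i → Subsingleton (R.Q i)

/-- The pure-injective dimension: the least length of a pure-injective resolution, `⊤` if there
is none of finite length. -/
noncomputable def pid (𝕜 : Type) [RCLike 𝕜] (X : Type) [NormedAddCommGroup X]
    [NormedSpace 𝕜 X] : ℕ∞ :=
  ⨅ (n : ℕ) (_ : HasPidRes 𝕜 X n), (n : ℕ∞)

end Pool.Agent.Helper56.Pid
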