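import Mathlib
import Pool.Agent.Helper56.Pid.Defs
import Pool.Agent.Helper69.FdClass

set_option autoImplicit false

/-!
# Pure short exact sequences, spaces complemented in their biduals, dimension shifting
-/

open Pool.Agent.Helper69.Fd NormedSpace

namespace Pool.Agent.Helper56.Pid

variable {𝕜 : Type} [RCLike 𝕜]

section

variable {A B C W : Type} [NormedAddCommGroup A] [NormedSpace 𝕜 A]
  [NormedAddCommGroup B] [NormedSpace 𝕜 B]
  [NormedAddCommGroup C] [NormedSpace 𝕜 C]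
  [NormedAddCommGroup W] [NormedSpace 𝕜 W]

/-- pure (locally split) short exact sequences -/
structure PSES (i : A →L[𝕜] B) (q : B →L[𝕜] C) : Prop where
  ses : SES i q
  ext : ∃ E : (A →L[𝕜] 𝕜) →L[𝕜] (B →L[𝕜] 𝕜), ∀ f a, E f (i a) = f a

/-- second adjoint of an operator commutes with the canonical embeddings -/
theorem pre_pre (s : A →L[𝕜] B) (a : A) :
    pre (pre s) (inclusionInDoubleDual 𝕜 A a) = inclusionInDoubleDual 𝕜 B (s a) := by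
  ext f
  rfl

/-- extension of operators into spaces complemented in the bidual -/
theorem PSES.extend {i : A →L[𝕜] B} {q : B →L[𝕜] C} (h : PSES i q) (hW : ComplBidual 𝕜 W)
    (f : A →L[𝕜] W) : ∃ g : B →L[𝕜] W, ∀ a, g (i a) = f a := by
  obtain ⟨E, hE⟩ := h.ext
  obtain ⟨P, hP⟩ := hW
  refine ⟨P.comp (E.comp (pre f)).flip, fun a => ?_⟩
  rw [ContinuousLinearMap.comp_apply, ← hP (f a)]
  congr 1
  ext w
  rw [ContinuousLinearMap.flip_apply, ContinuousLinearMap.comp_apply, hE]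
  rfl

theorem ComplBidual.retract (h : ComplBidual 𝕜 A) (s : B →L[𝕜] A) (q : A →L[𝕜] B)
    (hs : ∀ b, q (s b) = b) : ComplBidual 𝕜 B := by
  obtain ⟨P, hP⟩ := h
  refine ⟨q.comp (P.comp (pre (pre s))), fun b => ?_⟩
  rw [ContinuousLinearMap.comp_apply, ContinuousLinearMap.comp_apply, pre_pre, hP, hs]

theorem ComplBidual.iso (h : ComplBidual 𝕜 A) (e : A ≃L[𝕜] B) : ComplBidual 𝕜 B :=
  h.retract (e.symm : B →L[𝕜] A) (e : A →L[𝕜] B) (fun b => by simp)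

theorem ComplBidual.prod (hA : ComplBidual 𝕜 A) (hB : ComplBidual 𝕜 B) :
    ComplBidual 𝕜 (A × B) := by
  obtain ⟨P, hP⟩ := hA
  obtain ⟨R, hR⟩ := hB
  refine ⟨(P.comp (pre (pre (ContinuousLinearMap.fst 𝕜 A B)))).prod
    (R.comp (pre (pre (ContinuousLinearMap.snd 𝕜 A B)))), fun x => ?_⟩
  rw [ContinuousLinearMap.prod_apply, ContinuousLinearMap.comp_apply,
    ContinuousLinearMap.comp_apply, pre_pre, pre_pre, hP, hR]
  rfl

/-- dual spaces are complemented in their biduals -/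
theorem complBidual_dual (A : Type) [NormedAddCommGroup A] [NormedSpace 𝕜 A] :
    ComplBidual 𝕜 (A →L[𝕜] 𝕜) := by
  refine ⟨pre (inclusionInDoubleDual 𝕜 A), fun f => ?_⟩
  ext a
  rfl

theorem complBidual_of_subsingleton [Subsingleton A] : ComplBidual 𝕜 A :=
  ⟨0, fun _ => Subsingleton.elim _ _⟩

end

section

variable {A B C : Type} [NormedAddCommGroup A] [NormedSpace 𝕜 A]
  [NormedAddCommGroup B] [NormedSpace 𝕜 B] [CompleteSpace B]
  [NormedAddCommGroup C] [NormedSpace 𝕜 C] [CompleteSpace C]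

/-- a pure short exact sequence whose first term is complemented in its bidual splits -/
theorem PSES.split {i : A →L[𝕜] B} {q : B →L[𝕜] C} (h : PSES i q) (hA : ComplBidual 𝕜 A) :
    ∃ s : C →L[𝕜] B, ∀ c, q (s c) = c := by
  obtain ⟨r, hr⟩ := h.extend hA (ContinuousLinearMap.id 𝕜 A)
  have hr' : ∀ a, r (i a) = a := hr
  obtain ⟨s, hs⟩ := factor q h.ses.surj (ContinuousLinearMap.id 𝕜 B - i.comp r) (fun b hb => by
    obtain ⟨a, rfl⟩ := (h.ses.ex b).1 hb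
    show i a - i (r (i a)) = 0
    rw [hr', sub_self])
  have hs' : ∀ b, s (q b) = b - i (r b) := hs
  refine ⟨s, fun c => ?_⟩
  obtain ⟨b, rfl⟩ := h.ses.surj c
  rw [hs', map_sub, (h.ses.ex _).2 ⟨r b, rfl⟩, sub_zero]

end

/-- the quotient of a Banach space by the closed range of an operator bounded below -/
theorem exists_coker {A B : Ban 𝕜} (i : A.C →L[𝕜] B.C) (hi : Function.Injective i)
    (hc : IsClosed (Set.range i)) :
    ∃ (N : Ban 𝕜) (q : B.C →L[𝕜] N.C), SES i q := by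
  let R : Submodule 𝕜 B.C := LinearMap.range (i : A.C →ₗ[𝕜] B.C)
  have hR : IsClosed (R : Set B.C) := by
    have : (R : Set B.C) = Set.range i := by
      ext x
      simp [R]
    rw [this]
    exact hc
  have : IsClosed (R : Set B.C) := hR
  refine ⟨⟨B.C ⧸ R⟩, R.mkQL, hi, fun b => ?_, ?_⟩
  · rw [show R.mkQL b = Submodule.Quotient.mk b from rfl, Submodule.Quotient.mk_eq_zero]
    simp [R]
  · exact Submodule.mkQ_surjective R

/-- the canonical pure short exact sequence -/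
theorem exists_canonical (X : Ban 𝕜) :
    ∃ (Q C : Ban 𝕜) (i : X.C →L[𝕜] Q.C) (q : Q.C →L[𝕜] C.C), PSES i q ∧ ComplBidual 𝕜 Q.C := by
  let j : X.C →L[𝕜] ((X.C →L[𝕜] 𝕜) →L[𝕜] 𝕜) := inclusionInDoubleDual 𝕜 X.C
  have hiso : Isometry j := (inclusionInDoubleDualLi (E := X.C) 𝕜).isometry
  obtain ⟨N, q, hq⟩ := exists_coker (A := X) (B := ⟨(X.C →L[𝕜] 𝕜) →L[𝕜] 𝕜⟩) j hiso.injective
    hiso.isClosedEmbedding.isClosed_range
  exact ⟨⟨(X.C →L[𝕜] 𝕜) →L[𝕜] 𝕜⟩, N, j, q,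
    ⟨hq, inclusionInDoubleDual 𝕜 (X.C →L[𝕜] 𝕜), fun f a => rfl⟩, complBidual_dual _⟩

/-- spaces with a pure-injective resolution of length `m` -/
def Gm : ℕ → Ban 𝕜 → Prop
  | 0, X => ComplBidual 𝕜 X.C
  | m + 1, X => ∃ (Q C : Ban 𝕜) (i : X.C →L[𝕜] Q.C) (q : Q.C →L[𝕜] C.C),
      PSES i q ∧ ComplBidual 𝕜 Q.C ∧ Gm m C

theorem Gm.iso : ∀ (m : ℕ) (X Y : Ban 𝕜) (_ : X.C ≃L[𝕜] Y.C), Gm m X → Gm m Y
  | 0, X, Y, e, h => ComplBidual.iso h e
  | m + 1, X, Y, e, ⟨Q, C, i, q, hs, hQ, hC⟩ => by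
    obtain ⟨E, hE⟩ := hs.ext
    refine ⟨Q, C, i.comp (e.symm : Y.C →L[𝕜] X.C), q, ⟨⟨?_, fun b => ?_, hs.ses.surj⟩,
      E.comp (pre (e : X.C →L[𝕜] Y.C)), fun f a => ?_⟩, hQ, hC⟩
    · exact hs.ses.inj.comp e.symm.injective
    · rw [hs.ses.ex]
      constructor
      · rintro ⟨a, rfl⟩
        exact ⟨e a, by simp⟩
      · rintro ⟨a, rfl⟩
        exact ⟨e.symm a, rfl⟩
    · rw [ContinuousLinearMap.comp_apply, ContinuousLinearMap.comp_apply, hE, pre_apply]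
      simp

theorem Gm.prodR : ∀ (m : ℕ) (X R : Ban 𝕜), Gm m X → ComplBidual 𝕜 R.C → Gm m (⟨X.C × R.C⟩ : Ban 𝕜)
  | 0, X, R, h, hR => ComplBidual.prod h hR
  | m + 1, X, R, ⟨Q, C, i, q, hs, hQ, hC⟩, hR => by
    obtain ⟨E, hE⟩ := hs.ext
    refine ⟨⟨Q.C × R.C⟩, C, i.prodMap (ContinuousLinearMap.id 𝕜 R.C),
      q.comp (ContinuousLinearMap.fst 𝕜 Q.C R.C),
      ⟨⟨fun a b h => ?_, fun b => ?_, fun c => ?_⟩,
        (pre (ContinuousLinearMap.fst 𝕜 Q.C R.C)).comp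
          (E.comp (pre (ContinuousLinearMap.inl 𝕜 X.C R.C))) +
        (pre (ContinuousLinearMap.snd 𝕜 Q.C R.C)).comp
          (pre (ContinuousLinearMap.inr 𝕜 X.C R.C)), fun f a => ?_⟩,
      ComplBidual.prod hQ hR, hC⟩
    · have h2 := congrArg Prod.snd h
      exact Prod.ext (hs.ses.inj (congrArg Prod.fst h)) h2
    · obtain ⟨b1, b2⟩ := b
      constructor
      · intro h
        obtain ⟨a, ha⟩ := (hs.ses.ex b1).1 h
        exact ⟨(a, b2), Prod.ext ha rfl⟩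
      · rintro ⟨a, ha⟩
        exact (hs.ses.ex b1).2 ⟨a.1, congrArg Prod.fst ha⟩
    · obtain ⟨x, hx⟩ := hs.ses.surj c
      exact ⟨(x, 0), hx⟩
    · obtain ⟨a1, a2⟩ := a
      have h1 : E (pre (ContinuousLinearMap.inl 𝕜 X.C R.C) f) (i a1) = f (a1, 0) := hE _ _
      show E (pre (ContinuousLinearMap.inl 𝕜 X.C R.C) f) (i a1) + f (0, a2) = f (a1, a2)
      rw [h1, ← map_add]
      simp

section coschanuel

variable {A B C B' C' : Type} [NormedAddCommGroup A] [NormedSpace 𝕜 A]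
  [NormedAddCommGroup B] [NormedSpace 𝕜 B] [CompleteSpace B]
  [NormedAddCommGroup C] [NormedSpace 𝕜 C] [CompleteSpace C]
  [NormedAddCommGroup B'] [NormedSpace 𝕜 B'] [CompleteSpace B']
  [NormedAddCommGroup C'] [NormedSpace 𝕜 C'] [CompleteSpace C']

omit [CompleteSpace C'] [CompleteSpace B] [CompleteSpace B'] [CompleteSpace C] in
theorem coschanuel_aux (q : B →L[𝕜] C) (hq : Function.Surjective q) (q' : B' →L[𝕜] C')
    (φ : B →L[𝕜] B') (ψ : B' →L[𝕜] B) (θ : C →L[𝕜] B) (θ' : C' →L[𝕜] B')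
    (φb : C →L[𝕜] C') (ψb : C' →L[𝕜] C)
    (h1 : ∀ b, θ (q b) = ψ (φ b) - b) (h2 : ∀ b, θ' (q' b) = φ (ψ b) - b)
    (h3 : ∀ b, φb (q b) = q' (φ b)) (h4 : ∀ b, ψb (q' b) = q (ψ b)) (x : B') (c : C) :
    φ (ψ x - θ c) - θ' (q' x - φb c) = x ∧ q (ψ x - θ c) - ψb (q' x - φb c) = c := by
  obtain ⟨b, rfl⟩ := hq c
  constructor
  · rw [map_sub, map_sub, h1, h2, h3, h2, map_sub]
    abel
  · rw [map_sub, map_sub, h1, h3, h4, h4, map_sub]
    abel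

/-- Schanuel's lemma for pure short exact sequences with middle terms complemented in their
biduals -/
theorem coschanuel {i : A →L[𝕜] B} {q : B →L[𝕜] C} {i' : A →L[𝕜] B'} {q' : B' →L[𝕜] C'}
    (h : PSES i q) (h' : PSES i' q') (hB : ComplBidual 𝕜 B) (hB' : ComplBidual 𝕜 B') :
    Nonempty ((B' × C) ≃L[𝕜] (B × C')) := by
  obtain ⟨φ, hφ⟩ := h.extend hB' i'
  obtain ⟨ψ, hψ⟩ := h'.extend hB i
  obtain ⟨θ, hθ⟩ := factor q h.ses.surj (ψ.comp φ - ContinuousLinearMap.id 𝕜 B) (fun b hb => by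
    obtain ⟨a, rfl⟩ := (h.ses.ex b).1 hb
    show ψ (φ (i a)) - i a = 0
    rw [hφ, hψ, sub_self])
  obtain ⟨θ', hθ'⟩ := factor q' h'.ses.surj (φ.comp ψ - ContinuousLinearMap.id 𝕜 B')
    (fun b hb => by
      obtain ⟨a, rfl⟩ := (h'.ses.ex b).1 hb
      show φ (ψ (i' a)) - i' a = 0
      rw [hψ, hφ, sub_self])
  obtain ⟨φb, hφb⟩ := factor q h.ses.surj (q'.comp φ) (fun b hb => by
    obtain ⟨a, rfl⟩ := (h.ses.ex b).1 hb
    rw [ContinuousLinearMap.comp_apply, hφ, (h'.ses.ex _).2 ⟨a, rfl⟩])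
  obtain ⟨ψb, hψb⟩ := factor q' h'.ses.surj (q.comp ψ) (fun b hb => by
    obtain ⟨a, rfl⟩ := (h'.ses.ex b).1 hb
    rw [ContinuousLinearMap.comp_apply, hψ, (h.ses.ex _).2 ⟨a, rfl⟩])
  let F : (B' × C) →L[𝕜] (B × C') :=
    (ψ.comp (ContinuousLinearMap.fst 𝕜 B' C) - θ.comp (ContinuousLinearMap.snd 𝕜 B' C)).prod
    (q'.comp (ContinuousLinearMap.fst 𝕜 B' C) - φb.comp (ContinuousLinearMap.snd 𝕜 B' C))
  let G : (B × C') →L[𝕜] (B' × C) :=
    (φ.comp (ContinuousLinearMap.fst 𝕜 B C') - θ'.comp (ContinuousLinearMap.snd 𝕜 B C')).prod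
    (q.comp (ContinuousLinearMap.fst 𝕜 B C') - ψb.comp (ContinuousLinearMap.snd 𝕜 B C'))
  refine ⟨ContinuousLinearEquiv.equivOfInverse F G (fun x => ?_) (fun x => ?_)⟩
  · obtain ⟨x, c⟩ := x
    have := coschanuel_aux q h.ses.surj q' φ ψ θ θ' φb ψb hθ hθ' hφb hψb x c
    exact Prod.ext this.1 this.2
  · obtain ⟨x, c⟩ := x
    have := coschanuel_aux q' h'.ses.surj q ψ φ θ' θ ψb φb hθ' hθ hψb hφb x c
    exact Prod.ext this.1 this.2

end coschanuel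

/-- dimension shifting, given closure of `Gm m` under direct summands -/
theorem Gm.syzygy_aux (m : ℕ) (hfst : ∀ X Z : Ban 𝕜, Gm m (⟨X.C × Z.C⟩ : Ban 𝕜) → Gm m X)
    (X R K : Ban 𝕜) (i : X.C →L[𝕜] R.C) (β : R.C →L[𝕜] K.C)
    (hs : PSES i β) (hR : ComplBidual 𝕜 R.C) (hX : Gm (m + 1) X) : Gm m K := by
  obtain ⟨Q, C, i', q', hs', hQ, hC⟩ := hX
  obtain ⟨e⟩ := coschanuel hs hs' hR hQ
  -- e : Q × K ≃ R × C
  have h1 : Gm m (⟨C.C × R.C⟩ : Ban 𝕜) := Gm.prodR m C R hC hR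
  have h2 : Gm m (⟨K.C × Q.C⟩ : Ban 𝕜) :=
    Gm.iso m ⟨C.C × R.C⟩ ⟨K.C × Q.C⟩ (((ContinuousLinearEquiv.prodComm 𝕜 C.C R.C).trans
      e.symm).trans (ContinuousLinearEquiv.prodComm 𝕜 Q.C K.C)) h1
  exact hfst K Q h2

theorem PSES.prod {A B C A' B' C' : Type} [NormedAddCommGroup A] [NormedSpace 𝕜 A]
    [NormedAddCommGroup B] [NormedSpace 𝕜 B] [NormedAddCommGroup C] [NormedSpace 𝕜 C]
    [NormedAddCommGroup A'] [NormedSpace 𝕜 A'] [NormedAddCommGroup B'] [NormedSpace 𝕜 B']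
    [NormedAddCommGroup C'] [NormedSpace 𝕜 C'] {i : A →L[𝕜] B} {q : B →L[𝕜] C}
    {i' : A' →L[𝕜] B'} {q' : B' →L[𝕜] C'} (h : PSES i q) (h' : PSES i' q') :
    PSES (i.prodMap i') (q.prodMap q') := by
  obtain ⟨E, hE⟩ := h.ext
  obtain ⟨E', hE'⟩ := h'.ext
  refine ⟨⟨fun a b hab => ?_, fun b => ?_, fun y => ?_⟩,
    (pre (ContinuousLinearMap.fst 𝕜 B B')).comp
      (E.comp (pre (ContinuousLinearMap.inl 𝕜 A A'))) +
    (pre (ContinuousLinearMap.snd 𝕜 B B')).comp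
      (E'.comp (pre (ContinuousLinearMap.inr 𝕜 A A'))), fun f a => ?_⟩
  · exact Prod.ext (h.ses.inj (congrArg Prod.fst hab)) (h'.ses.inj (congrArg Prod.snd hab))
  · obtain ⟨u, v⟩ := b
    constructor
    · intro h1
      obtain ⟨x, hx⟩ := (h.ses.ex u).1 (congrArg Prod.fst h1)
      obtain ⟨y, hy⟩ := (h'.ses.ex v).1 (congrArg Prod.snd h1)
      exact ⟨(x, y), Prod.ext hx hy⟩
    · rintro ⟨⟨x, y⟩, hxy⟩
      exact Prod.ext ((h.ses.ex u).2 ⟨x, congrArg Prod.fst hxy⟩)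
        ((h'.ses.ex v).2 ⟨y, congrArg Prod.snd hxy⟩)
  · obtain ⟨u, hu⟩ := h.ses.surj y.1
    obtain ⟨v, hv⟩ := h'.ses.surj y.2
    exact ⟨(u, v), Prod.ext hu hv⟩
  · obtain ⟨a1, a2⟩ := a
    have h1 : E (pre (ContinuousLinearMap.inl 𝕜 A A') f) (i a1) = f (a1, 0) := hE _ _
    have h2 : E' (pre (ContinuousLinearMap.inr 𝕜 A A') f) (i' a2) = f (0, a2) := hE' _ _
    show E (pre (ContinuousLinearMap.inl 𝕜 A A') f) (i a1) +
      E' (pre (ContinuousLinearMap.inr 𝕜 A A') f) (i' a2) = f (a1, a2)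
    rw [h1, h2, ← map_add]
    simp

theorem Gm.fst : ∀ (m : ℕ) (X Z : Ban 𝕜), Gm m (⟨X.C × Z.C⟩ : Ban 𝕜) → Gm m X
  | 0, X, Z, h => ComplBidual.retract (A := X.C × Z.C) (B := X.C) h
      (ContinuousLinearMap.inl 𝕜 X.C Z.C) (ContinuousLinearMap.fst 𝕜 X.C Z.C) (fun _ => rfl)
  | m + 1, X, Z, h => by
    obtain ⟨Q1, C1, i1, q1, hs1, hQ1⟩ := exists_canonical X
    obtain ⟨Q2, C2, i2, q2, hs2, hQ2⟩ := exists_canonical Z
    have h1 : Gm m (⟨C1.C × C2.C⟩ : Ban 𝕜) :=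
      Gm.syzygy_aux m (Gm.fst m) ⟨X.C × Z.C⟩ ⟨Q1.C × Q2.C⟩ ⟨C1.C × C2.C⟩ (i1.prodMap i2)
        (q1.prodMap q2) (hs1.prod hs2) (ComplBidual.prod hQ1 hQ2) h
    exact ⟨Q1, C1, i1, q1, hs1, hQ1, Gm.fst m C1 C2 h1⟩

/-- dimension shifting -/
theorem Gm.syzygy (m : ℕ) (X R K : Ban 𝕜) (i : X.C →L[𝕜] R.C) (β : R.C →L[𝕜] K.C)
    (hs : PSES i β) (hR : ComplBidual 𝕜 R.C) (hX : Gm (m + 1) X) : Gm m K :=
  Gm.syzygy_aux m (Gm.fst m) X R K i β hs hR hX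

/-- direct summands -/
theorem Gm.retract (m : ℕ) (X Y : Ban 𝕜) (s : Y.C →L[𝕜] X.C) (q : X.C →L[𝕜] Y.C)
    (hs : ∀ y, q (s y) = y) (h : Gm m X) : Gm m Y := by
  have hq : Function.Surjective q := fun y => ⟨s y, hs y⟩
  obtain ⟨N, i1, i2, i3, ν, hν⟩ := exists_ker q hq
  have hqν : ∀ n, q (ν n) = 0 := fun n => (hν.ex (ν n)).2 ⟨n, rfl⟩
  let f : (Y.C × N) →L[𝕜] X.C := s.comp (ContinuousLinearMap.fst 𝕜 Y.C N) +
    ν.comp (ContinuousLinearMap.snd 𝕜 Y.C N)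
  have hf : ∀ y n, f (y, n) = s y + ν n := fun y n => rfl
  have hinj : Function.Injective f := by
    rw [injective_iff_map_eq_zero]
    rintro ⟨y, n⟩ h0
    rw [hf] at h0
    have h1 := congrArg q h0
    rw [map_add, hs, hqν, add_zero, map_zero] at h1
    rw [h1, map_zero, zero_add] at h0
    have h2 : n = 0 := hν.inj (by rw [h0, map_zero])
    rw [h1, h2]
    rfl
  have hsurj : Function.Surjective f := by
    intro x
    have h1 : q (x - s (q x)) = 0 := by rw [map_sub, hs, sub_self]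
    obtain ⟨n, hn⟩ := (hν.ex _).1 h1
    exact ⟨(q x, n), by rw [hf, hn]; abel⟩
  have e : (Y.C × N) ≃L[𝕜] X.C := ContinuousLinearEquiv.ofBijective f
    (LinearMap.ker_eq_bot.2 hinj) (LinearMap.range_eq_top.2 hsurj)
  exact Gm.fst m Y ⟨N⟩ (Gm.iso m X ⟨Y.C × N⟩ e.symm h)

end Pool.Agent.Helper56.Pid
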