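import Mathlib
import Pool.Agent.Helper56.Pid.Basic

set_option autoImplicit false

/-!
# Every Banach space is a quotient of an `ℓ¹`-sum of finite dimensional spaces by a pure kernel
-/

open Pool.Agent.Helper69.Fd NormedSpace Filter

namespace Pool.Agent.Helper56.Pid

variable {𝕜 : Type} [RCLike 𝕜]

section sum

variable {ι : Type} {E : ι → Type} [∀ i, NormedAddCommGroup (E i)] [∀ i, NormedSpace 𝕜 (E i)]

omit [∀ i, NormedSpace 𝕜 (E i)] in
theorem s1_norm (x : lp E 1) : ‖x‖ = ∑' i, ‖x i‖ := by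
  rw [lp.norm_eq_tsum_rpow (by simp)]
  simp

omit [∀ i, NormedSpace 𝕜 (E i)] in
theorem s1_summable (x : lp E 1) : Summable fun i => ‖x i‖ := by
  have := (lp.memℓp x).summable (by simp)
  simpa using this

omit [∀ i, NormedSpace 𝕜 (E i)] in
theorem s1_sum_le (x : lp E 1) (A : Finset ι) : ∑ i ∈ A, ‖x i‖ ≤ ‖x‖ := by
  rw [s1_norm]
  exact (s1_summable x).sum_le_tsum A (fun _ _ => norm_nonneg _)

variable {W : Type} [NormedAddCommGroup W] [NormedSpace 𝕜 W]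

theorem slift_summable {u : ∀ i, E i →L[𝕜] W} {B : ℝ} (hB : ∀ i, ‖u i‖ ≤ B) (x : lp E 1) :
    Summable fun i => ‖u i (x i)‖ := by
  refine Summable.of_nonneg_of_le (fun s => norm_nonneg _) (fun i => ?_)
    ((s1_summable x).mul_left B)
  exact (u i).le_of_opNorm_le (hB i) _

variable [CompleteSpace W]

/-- the operator on the `ℓ¹`-sum with prescribed restrictions to the summands -/
noncomputable def slift (u : ∀ i, E i →L[𝕜] W) (B : ℝ) (hB : ∀ i, ‖u i‖ ≤ B) :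
    lp E 1 →L[𝕜] W :=
  LinearMap.mkContinuous
    { toFun := fun x => ∑' i, u i (x i)
      map_add' := fun x y => by
        rw [← ((slift_summable hB x).of_norm).tsum_add ((slift_summable hB y).of_norm)]
        congr 1; funext s
        rw [lp.coeFn_add, Pi.add_apply, map_add]
      map_smul' := fun a x => by
        rw [RingHom.id_apply, ← ((slift_summable hB x).of_norm).tsum_const_smul]
        congr 1; funext s
        rw [lp.coeFn_smul, Pi.smul_apply, map_smul] }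
    B (fun x => by
      show ‖∑' i, u i (x i)‖ ≤ B * ‖x‖
      refine (norm_tsum_le_tsum_norm (slift_summable hB x)).trans ?_
      rw [s1_norm, ← tsum_mul_left]
      refine (slift_summable hB x).tsum_le_tsum (fun i => ?_) ((s1_summable x).mul_left B)
      exact (u i).le_of_opNorm_le (hB i) _)

theorem slift_apply (u : ∀ i, E i →L[𝕜] W) (B : ℝ) (hB : ∀ i, ‖u i‖ ≤ B) (x : lp E 1) :
    slift u B hB x = ∑' i, u i (x i) := rfl

theorem slift_norm_le (u : ∀ i, E i →L[𝕜] W) (B : ℝ) (hB : ∀ i, ‖u i‖ ≤ B) (x : lp E 1) :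
    ‖slift u B hB x‖ ≤ B * ‖x‖ := by
  rw [slift_apply]
  refine (norm_tsum_le_tsum_norm (slift_summable hB x)).trans ?_
  rw [s1_norm, ← tsum_mul_left]
  refine (slift_summable hB x).tsum_le_tsum (fun i => ?_) ((s1_summable x).mul_left B)
  exact (u i).le_of_opNorm_le (hB i) _

theorem slift_single [DecidableEq ι] (u : ∀ i, E i →L[𝕜] W) (B : ℝ) (hB : ∀ i, ‖u i‖ ≤ B)
    (i : ι) (y : E i) : slift u B hB (lp.single 1 i y) = u i y := by
  rw [slift_apply, tsum_eq_single i]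
  · rw [lp.single_apply_self]
  · intro t ht
    rw [lp.single_apply_ne _ _ _ ht, map_zero]

end sum

section bidual

variable {ι : Type} {E : ι → Type} [∀ i, NormedAddCommGroup (E i)] [∀ i, NormedSpace 𝕜 (E i)]

/-- evaluation at an index -/
noncomputable def ev (𝕜 : Type) [RCLike 𝕜] {ι : Type} (E : ι → Type)
    [∀ i, NormedAddCommGroup (E i)] [∀ i, NormedSpace 𝕜 (E i)] (i : ι) : lp E 1 →L[𝕜] E i :=
  lp.evalCLM 𝕜 E 1 i

theorem ev_apply (i : ι) (x : lp E 1) : ev 𝕜 E i x = x i := rfl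

/-- a finite dimensional space is canonically isomorphic to its bidual -/
theorem exists_biduals (F : Type) [NormedAddCommGroup F] [NormedSpace 𝕜 F]
    [FiniteDimensional 𝕜 F] :
    ∃ J : ((F →L[𝕜] 𝕜) →L[𝕜] 𝕜) →ₗ[𝕜] F,
      (∀ x, J (inclusionInDoubleDual 𝕜 F x) = x) ∧
      ∀ Φ, inclusionInDoubleDual 𝕜 F (J Φ) = Φ := by
  have hinj : Function.Injective (inclusionInDoubleDual 𝕜 F) :=
    (inclusionInDoubleDualLi (E := F) 𝕜).injective
  have e1 : Module.finrank 𝕜 F = Module.finrank 𝕜 (F →L[𝕜] 𝕜) := by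
    rw [← (LinearMap.toContinuousLinearMap (𝕜 := 𝕜) (E := F) (F' := 𝕜)).finrank_eq]
    exact (Subspace.dual_finrank_eq (K := 𝕜) (V := F)).symm
  have : FiniteDimensional 𝕜 (F →L[𝕜] 𝕜) :=
    (LinearMap.toContinuousLinearMap (𝕜 := 𝕜) (E := F) (F' := 𝕜)).finiteDimensional
  have e2 : Module.finrank 𝕜 (F →L[𝕜] 𝕜) = Module.finrank 𝕜 ((F →L[𝕜] 𝕜) →L[𝕜] 𝕜) := by
    rw [← (LinearMap.toContinuousLinearMap (𝕜 := 𝕜) (E := F →L[𝕜] 𝕜) (F' := 𝕜)).finrank_eq]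
    exact (Subspace.dual_finrank_eq (K := 𝕜) (V := F →L[𝕜] 𝕜)).symm
  have : FiniteDimensional 𝕜 ((F →L[𝕜] 𝕜) →L[𝕜] 𝕜) :=
    (LinearMap.toContinuousLinearMap (𝕜 := 𝕜) (E := F →L[𝕜] 𝕜) (F' := 𝕜)).finiteDimensional
  let e : F ≃ₗ[𝕜] ((F →L[𝕜] 𝕜) →L[𝕜] 𝕜) :=
    LinearEquiv.ofInjectiveOfFinrankEq (K := 𝕜) (V := F) (V' := (F →L[𝕜] 𝕜) →L[𝕜] 𝕜)
      (inclusionInDoubleDual 𝕜 F).toLinearMap hinj (e1.trans e2)
  refine ⟨(e.symm : _ →ₗ[𝕜] F), fun x => e.symm_apply_apply x, fun Φ => e.apply_symm_apply Φ⟩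

/-- an `ℓ¹`-sum of finite dimensional spaces is complemented in its bidual -/
theorem complBidual_sum [∀ i, FiniteDimensional 𝕜 (E i)] : ComplBidual 𝕜 (lp E 1) := by
  classical
  choose J hJ1 hJ2 using fun i => exists_biduals (𝕜 := 𝕜) (E i)
  -- the coordinates
  let c : ∀ (Φ : (lp E 1 →L[𝕜] 𝕜) →L[𝕜] 𝕜) (i : ι), E i := fun Φ i =>
    J i (pre (pre (ev 𝕜 E i)) Φ)
  have hbound : ∀ (Φ : (lp E 1 →L[𝕜] 𝕜) →L[𝕜] 𝕜) (A : Finset ι), ∑ i ∈ A, ‖c Φ i‖ ≤ ‖Φ‖ := by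
    intro Φ A
    have h1 : ∀ i, ∃ g : E i →L[𝕜] 𝕜, ‖g‖ ≤ 1 ∧ g (c Φ i) = (‖c Φ i‖ : 𝕜) := fun i =>
      exists_dual_vector'' 𝕜 (c Φ i)
    choose g hg1 hg2 using h1
    have h2 : ∀ i, Φ ((g i).comp (ev 𝕜 E i)) = (‖c Φ i‖ : 𝕜) := by
      intro i
      rw [← hg2 i]
      have := congrArg (fun Ψ => Ψ (g i)) (hJ2 i (pre (pre (ev 𝕜 E i)) Φ))
      exact this.symm
    let G : lp E 1 →L[𝕜] 𝕜 := ∑ i ∈ A, (g i).comp (ev 𝕜 E i)
    have hG : ‖G‖ ≤ 1 := by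
      apply ContinuousLinearMap.opNorm_le_bound _ zero_le_one
      intro x
      have e1 : G x = ∑ i ∈ A, g i (x i) := by
        simp only [G, sum_apply]
        rfl
      rw [e1, one_mul]
      refine (norm_sum_le _ _).trans ((Finset.sum_le_sum fun i _ => ?_).trans (s1_sum_le x A))
      calc ‖g i (x i)‖ ≤ ‖g i‖ * ‖x i‖ := (g i).le_opNorm _
        _ ≤ 1 * ‖x i‖ := mul_le_mul_of_nonneg_right (hg1 i) (norm_nonneg _)
        _ = ‖x i‖ := one_mul _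
    have h3 : Φ G = ((∑ i ∈ A, ‖c Φ i‖ : ℝ) : 𝕜) := by
      simp only [G, map_sum, h2]
    have h4 : ‖Φ G‖ = ∑ i ∈ A, ‖c Φ i‖ := by
      rw [h3, RCLike.norm_ofReal, abs_of_nonneg (Finset.sum_nonneg fun _ _ => norm_nonneg _)]
    calc ∑ i ∈ A, ‖c Φ i‖ = ‖Φ G‖ := h4.symm
      _ ≤ ‖Φ‖ * ‖G‖ := Φ.le_opNorm G
      _ ≤ ‖Φ‖ * 1 := mul_le_mul_of_nonneg_left hG (norm_nonneg Φ)
      _ = ‖Φ‖ := mul_one _
  have hsum : ∀ Φ, Summable fun i => ‖c Φ i‖ := fun Φ =>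
    summable_of_sum_le (fun _ => norm_nonneg _) (hbound Φ)
  have hmem : ∀ Φ, Memℓp (c Φ) 1 := fun Φ => by
    apply memℓp_gen
    simpa using hsum Φ
  refine ⟨LinearMap.mkContinuous
    { toFun := fun Φ => (⟨c Φ, hmem Φ⟩ : lp E 1)
      map_add' := fun Φ Ψ => by
        ext i
        show c (Φ + Ψ) i = c Φ i + c Ψ i
        simp only [c, map_add]
      map_smul' := fun a Φ => by
        ext i
        show c (a • Φ) i = a • c Φ i
        simp only [c, map_smul] }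
    1 (fun Φ => ?_), fun x => ?_⟩
  · rw [one_mul]
    show ‖(⟨c Φ, hmem Φ⟩ : lp E 1)‖ ≤ ‖Φ‖
    rw [s1_norm]
    exact (hsum Φ).tsum_le_of_sum_le (hbound Φ)
  · ext i
    show J i (pre (pre (ev 𝕜 E i)) (inclusionInDoubleDual 𝕜 (lp E 1) x)) = x i
    rw [pre_pre, hJ1]
    rfl

end bidual

/-- extension operators from nets of operators -/
theorem exists_ext_of_net {X Y I : Type} [NormedAddCommGroup X] [NormedSpace 𝕜 X]
    [NormedAddCommGroup Y] [NormedSpace 𝕜 Y] (ν : X →L[𝕜] Y) (l : Filter I) [l.NeBot]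
    (T : I → Y →L[𝕜] X) (K : ℝ) (hT : ∀ i y, ‖T i y‖ ≤ K * ‖y‖)
    (hlim : ∀ x, Tendsto (fun i => T i (ν x)) l (nhds x)) :
    ∃ E : (X →L[𝕜] 𝕜) →L[𝕜] (Y →L[𝕜] 𝕜), ∀ f x, E f (ν x) = f x := by
  let U : Ultrafilter I := Ultrafilter.of l
  have hU : (U : Filter I) ≤ l := Ultrafilter.of_le _
  have hlim' : ∀ (f : X →L[𝕜] 𝕜) (y : Y), ∃ a : 𝕜, ‖a‖ ≤ K * ‖f‖ * ‖y‖ ∧
      Tendsto (fun s => f (T s y)) U (nhds a) := by
    intro f y
    have hK : IsCompact (Metric.closedBall (0 : 𝕜) (K * ‖f‖ * ‖y‖)) := isCompact_closedBall _ _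
    have hmem : ∀ s, f (T s y) ∈ Metric.closedBall (0 : 𝕜) (K * ‖f‖ * ‖y‖) := by
      intro s
      rw [mem_closedBall_zero_iff]
      calc ‖f (T s y)‖ ≤ ‖f‖ * ‖T s y‖ := f.le_opNorm _
        _ ≤ ‖f‖ * (K * ‖y‖) := mul_le_mul_of_nonneg_left (hT s y) (norm_nonneg _)
        _ = K * ‖f‖ * ‖y‖ := by ring
    obtain ⟨a, ha, hle⟩ := hK.ultrafilter_le_nhds (U.map (fun s => f (T s y))) (by
      rw [Filter.le_principal_iff]
      exact Filter.mem_map.mpr (Filter.univ_mem' hmem))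
    exact ⟨a, by simpa using ha, hle⟩
  choose L hL1 hL2 using hlim'
  let M : (X →L[𝕜] 𝕜) →ₗ[𝕜] Y →ₗ[𝕜] 𝕜 := LinearMap.mk₂ 𝕜 L
    (fun f g y => tendsto_nhds_unique (hL2 (f + g) y) ((hL2 f y).add (hL2 g y)))
    (fun k f y => tendsto_nhds_unique (hL2 (k • f) y) ((hL2 f y).const_smul k))
    (fun f y z => by
      refine tendsto_nhds_unique_of_eventuallyEq (hL2 f (y + z)) ((hL2 f y).add (hL2 f z)) ?_
      filter_upwards with s
      rw [map_add, map_add])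
    (fun k f y => by
      refine tendsto_nhds_unique_of_eventuallyEq (hL2 f (k • y)) ((hL2 f y).const_smul k) ?_
      filter_upwards with s
      rw [map_smul, map_smul])
  refine ⟨M.mkContinuous₂ K (fun f y => hL1 f y), fun f x => ?_⟩
  change L f (ν x) = f x
  refine tendsto_nhds_unique (hL2 f (ν x)) ?_
  exact ((f.continuous.tendsto x).comp (hlim x)).mono_left hU

/-! ### the canonical quotient map -/

section can

variable (𝕜) (Z : Type) [NormedAddCommGroup Z] [NormedSpace 𝕜 Z]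

/-- finite dimensional subspaces -/
abbrev FD : Type := {F : Submodule 𝕜 Z // FiniteDimensional 𝕜 F}

instance fdFin (F : FD 𝕜 Z) : FiniteDimensional 𝕜 F.1 := F.2

instance : Nonempty (FD 𝕜 Z) := ⟨⟨⊥, inferInstance⟩⟩

instance : IsDirectedOrder (FD 𝕜 Z) := ⟨fun F G => by
  have := F.2
  have := G.2
  exact ⟨⟨F.1 ⊔ G.1, Submodule.finiteDimensional_sup F.1 G.1⟩,
    (le_sup_left : F.1 ≤ F.1 ⊔ G.1), (le_sup_right : G.1 ≤ F.1 ⊔ G.1)⟩⟩

/-- the `ℓ¹`-sum of all finite dimensional subspaces -/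
abbrev FSum : Type := lp (fun F : FD 𝕜 Z => F.1) 1

end can

section can

variable {Z : Type} [NormedAddCommGroup Z] [NormedSpace 𝕜 Z] [CompleteSpace Z]

/-- the sum operator -/
noncomputable def sumOp (𝕜 : Type) [RCLike 𝕜] (Z : Type) [NormedAddCommGroup Z]
    [NormedSpace 𝕜 Z] [CompleteSpace Z] : FSum 𝕜 Z →L[𝕜] Z :=
  slift (fun F : FD 𝕜 Z => F.1.subtypeL) 1 (fun F => Submodule.norm_subtypeL_le F.1)

open Classical in
theorem sumOp_single (F : FD 𝕜 Z) (y : F.1) : sumOp 𝕜 Z (lp.single 1 F y) = y := by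
  unfold sumOp
  rw [slift_single]
  rfl

theorem sumOp_norm_le (x : FSum 𝕜 Z) : ‖sumOp 𝕜 Z x‖ ≤ ‖x‖ := by
  have := slift_norm_le (fun F : FD 𝕜 Z => F.1.subtypeL) 1 (fun F => Submodule.norm_subtypeL_le F.1) x
  rwa [one_mul] at this

theorem sumOp_surj : Function.Surjective (sumOp 𝕜 Z) := by
  classical
  intro z
  exact ⟨lp.single 1 ⟨Submodule.span 𝕜 {z}, inferInstance⟩
    ⟨z, Submodule.mem_span_singleton_self z⟩, sumOp_single _ _⟩

end can

end Pool.Agent.Helper56.Pid
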