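import Mathlib
import Pool.Agent.Helper56.Pid.Sum

set_option autoImplicit false

/-!
# The kernel of the canonical quotient map is pure
-/

open Pool.Agent.Helper69.Fd NormedSpace Filter

namespace Pool.Agent.Helper56.Pid

variable {𝕜 : Type} [RCLike 𝕜]

section can

variable {Z : Type} [NormedAddCommGroup Z] [NormedSpace 𝕜 Z] [CompleteSpace Z]

open Classical in
/-- the difference of the two placements of a vector of `F ≤ G` -/
noncomputable def uG (G F : FD 𝕜 Z) : F.1 →L[𝕜] FSum 𝕜 Z :=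
  if h : F ≤ G then
    LinearMap.mkContinuous
      { toFun := fun x => (lp.single 1 F x : FSum 𝕜 Z) - lp.single 1 G ⟨x, h x.2⟩
        map_add' := fun x y => by
          rw [lp.single_add, show (⟨((x + y : F.1) : Z), h (x + y).2⟩ : G.1) =
            ⟨x, h x.2⟩ + ⟨y, h y.2⟩ from rfl, lp.single_add]
          abel
        map_smul' := fun a x => by
          rw [lp.single_smul, show (⟨((a • x : F.1) : Z), h (a • x).2⟩ : G.1) =
            a • ⟨x, h x.2⟩ from rfl, lp.single_smul, RingHom.id_apply, smul_sub] }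
      2 (fun x => by
        show ‖(lp.single 1 F x : FSum 𝕜 Z) - lp.single 1 G ⟨x, h x.2⟩‖ ≤ 2 * ‖x‖
        refine (norm_sub_le _ _).trans ?_
        rw [lp.norm_single (by simp), lp.norm_single (by simp)]
        have : ‖(⟨x, h x.2⟩ : G.1)‖ = ‖x‖ := rfl
        rw [this, two_mul])
  else 0

omit [CompleteSpace Z] in
open Classical in
theorem uG_apply {G F : FD 𝕜 Z} (h : F ≤ G) (x : F.1) :
    uG G F x = (lp.single 1 F x : FSum 𝕜 Z) - lp.single 1 G ⟨x, h x.2⟩ := by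
  unfold uG
  rw [dif_pos h]
  rfl

theorem uG_norm_le (G F : FD 𝕜 Z) : ‖uG G F‖ ≤ 2 := by
  classical
  by_cases h : F ≤ G
  · unfold uG
    rw [dif_pos h]
    exact LinearMap.mkContinuous_norm_le _ zero_le_two _
  · unfold uG
    rw [dif_neg h]
    exact (norm_zero (E := F.1 →L[𝕜] FSum 𝕜 Z)).trans_le zero_le_two

/-- the approximate projections onto the kernel -/
noncomputable def tG (G : FD 𝕜 Z) : FSum 𝕜 Z →L[𝕜] FSum 𝕜 Z := slift (uG G) 2 (uG_norm_le G)

theorem tG_norm_le (G : FD 𝕜 Z) (x : FSum 𝕜 Z) : ‖tG G x‖ ≤ 2 * ‖x‖ := slift_norm_le _ _ _ x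

theorem sumOp_tG (G : FD 𝕜 Z) (x : FSum 𝕜 Z) : sumOp 𝕜 Z (tG G x) = 0 := by
  classical
  have h : (sumOp 𝕜 Z).comp (tG G) = 0 := by
    apply lp.ext_continuousLinearMap (by simp)
    intro F
    ext y
    show sumOp 𝕜 Z (tG G (lp.single 1 F y)) = 0
    unfold tG
    rw [slift_single]
    by_cases h : F ≤ G
    · rw [uG_apply h, map_sub, sumOp_single, sumOp_single, sub_self]
    · unfold uG
      rw [dif_neg h]
      simp
  exact congrArg (fun f => f x) h

open Classical in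
theorem tG_sum_le (G : FD 𝕜 Z) (x : FSum 𝕜 Z) (A : Finset (FD 𝕜 Z)) (hA : ∀ F ∈ A, F ≤ G) :
    ‖tG G (∑ F ∈ A, lp.single 1 F (x F)) - ∑ F ∈ A, lp.single 1 F (x F)‖ ≤
      ‖sumOp 𝕜 Z (∑ F ∈ A, lp.single 1 F (x F))‖ := by
  let w : FD 𝕜 Z → G.1 := fun F => if h : F ≤ G then ⟨x F, h (x F).2⟩ else 0
  have h1 : ∀ F ∈ A, tG G (lp.single 1 F (x F)) - lp.single 1 F (x F) =
      -(lp.single 1 G (w F) : FSum 𝕜 Z) := by
    intro F hF
    unfold tG
    rw [slift_single, uG_apply (hA F hF)]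
    simp only [w]
    rw [dif_pos (hA F hF)]
    abel
  have h2 : ∀ F ∈ A, sumOp 𝕜 Z (lp.single 1 F (x F)) = (w F : Z) := by
    intro F hF
    rw [sumOp_single]
    simp only [w]
    rw [dif_pos (hA F hF)]
  have h3 : tG G (∑ F ∈ A, lp.single 1 F (x F)) - ∑ F ∈ A, lp.single 1 F (x F) =
      -(lp.single 1 G (∑ F ∈ A, w F) : FSum 𝕜 Z) := by
    rw [map_sum, ← Finset.sum_sub_distrib, Finset.sum_congr rfl h1, Finset.sum_neg_distrib]
    congr 1
    exact (map_sum (lp.singleAddMonoidHom (E := fun F : FD 𝕜 Z => F.1) 1 G) w A).symm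
  rw [h3, norm_neg, lp.norm_single (by simp), map_sum, Finset.sum_congr rfl h2]
  apply le_of_eq
  rw [← Submodule.coe_sum]
  rfl

theorem tG_tendsto (x : FSum 𝕜 Z) (hx : sumOp 𝕜 Z x = 0) :
    Tendsto (fun G => tG G x) atTop (nhds x) := by
  classical
  rw [Metric.tendsto_nhds]
  intro ε hε
  have h1 := lp.hasSum_single (E := fun F : FD 𝕜 Z => F.1) (p := 1) (by simp) x
  rw [HasSum, SummationFilter.unconditional_filter, Metric.tendsto_atTop] at h1
  obtain ⟨A, hA⟩ := h1 (ε / 5) (by positivity)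
  have hA' := hA A le_rfl
  obtain ⟨G0, hG0⟩ := A.exists_le
  filter_upwards [eventually_ge_atTop G0] with G hG
  have hAG : ∀ F ∈ A, F ≤ G := fun F hF => (hG0 F hF).trans hG
  set s : FSum 𝕜 Z := ∑ F ∈ A, lp.single 1 F (x F) with hs
  rw [dist_eq_norm] at hA' ⊢
  have e1 := tG_sum_le G x A hAG
  rw [← hs] at e1
  have e2 : ‖sumOp 𝕜 Z s‖ ≤ ‖s - x‖ := by
    have : sumOp 𝕜 Z s = sumOp 𝕜 Z (s - x) := by rw [map_sub, hx, sub_zero]
    rw [this]
    exact sumOp_norm_le _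
  have e3 : tG G x - x = (tG G s - s) - tG G (s - x) + (s - x) := by
    rw [map_sub]; abel
  rw [e3]
  calc ‖tG G s - s - tG G (s - x) + (s - x)‖
      ≤ ‖tG G s - s‖ + ‖tG G (s - x)‖ + ‖s - x‖ :=
        (norm_add_le _ _).trans (add_le_add (norm_sub_le _ _) le_rfl)
    _ ≤ ‖s - x‖ + 2 * ‖s - x‖ + ‖s - x‖ :=
        add_le_add (add_le_add (e1.trans e2) (tG_norm_le G _)) le_rfl
    _ < ε := by linarith

/-- every Banach space is the cokernel of a pure embedding into an `ℓ¹`-sum of finite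
dimensional spaces -/
theorem exists_can (Z : Ban 𝕜) : ∃ (X : Ban 𝕜) (i : X.C →L[𝕜] FSum 𝕜 Z.C),
    PSES i (sumOp 𝕜 Z.C) := by
  obtain ⟨N, i1, i2, i3, ν, hν⟩ := exists_ker (sumOp 𝕜 Z.C) sumOp_surj
  obtain ⟨c, hc⟩ := hν.bddBelow
  choose T hT using fun G : FD 𝕜 Z.C => colift hν (tG G) (sumOp_tG G)
  refine ⟨⟨N⟩, ν, hν, exists_ext_of_net ν atTop T (|c| * 2) (fun G y => ?_) (fun x => ?_)⟩
  · calc ‖T G y‖ ≤ c * ‖ν (T G y)‖ := hc _
      _ ≤ |c| * ‖ν (T G y)‖ := mul_le_mul_of_nonneg_right (le_abs_self c) (norm_nonneg _)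
      _ = |c| * ‖tG G y‖ := by rw [hT]
      _ ≤ |c| * (2 * ‖y‖) := mul_le_mul_of_nonneg_left (tG_norm_le G y) (abs_nonneg _)
      _ = |c| * 2 * ‖y‖ := by ring
  · have h1 := tG_tendsto (ν x) ((hν.ex _).2 ⟨x, rfl⟩)
    rw [Metric.tendsto_nhds] at h1 ⊢
    intro ε hε
    filter_upwards [h1 (ε / (|c| + 1)) (by positivity)] with G hG
    rw [dist_eq_norm] at hG ⊢
    rw [← hT, ← map_sub] at hG
    calc ‖T G (ν x) - x‖ ≤ c * ‖ν (T G (ν x) - x)‖ := hc _
      _ ≤ (|c| + 1) * ‖ν (T G (ν x) - x)‖ :=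
        mul_le_mul_of_nonneg_right ((le_abs_self c).trans (by linarith)) (norm_nonneg _)
      _ < (|c| + 1) * (ε / (|c| + 1)) := mul_lt_mul_of_pos_left hG (by positivity)
      _ = ε := by field_simp

end can

end Pool.Agent.Helper56.Pid
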