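import Mathlib
import Pool.Agent.Helper56.Pid.Can

set_option autoImplicit false

/-!
# The dual of `ℓ²` does not embed in an `ℓ¹`-sum of finite dimensional spaces
-/

open Pool.Agent.Helper69.Fd NormedSpace Filter

namespace Pool.Agent.Helper56.Pid

variable {𝕜 : Type} [RCLike 𝕜]

section abstract

variable {Z : Type} [NormedAddCommGroup Z] [NormedSpace 𝕜 Z] {u : ℕ → Z}

theorem exists_phase (a : 𝕜) : ∃ e : 𝕜, ‖e‖ ≤ 1 ∧ e * a = (‖a‖ : 𝕜) := by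
  by_cases h : a = 0
  · exact ⟨0, by simp, by simp [h]⟩
  · refine ⟨(starRingEnd 𝕜) a / (‖a‖ : 𝕜), ?_, ?_⟩
    · rw [norm_div, RCLike.norm_conj, RCLike.norm_ofReal, abs_norm, div_self]
      exact norm_ne_zero_iff.2 h
    · have h0 : (‖a‖ : 𝕜) ≠ 0 := by
        rw [Ne, RCLike.ofReal_eq_zero]; exact norm_ne_zero_iff.2 h
      rw [div_mul_eq_mul_div, RCLike.conj_mul, div_eq_iff h0, sq]

theorem sum_norm_functional_le
    (hu : ∀ (A : Finset ℕ) (e : ℕ → 𝕜), (∀ k, ‖e k‖ ≤ 1) → ‖∑ k ∈ A, e k • u k‖ ≤ √A.card)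
    (φ : Z →L[𝕜] 𝕜) (A : Finset ℕ) : ∑ k ∈ A, ‖φ (u k)‖ ≤ ‖φ‖ * √A.card := by
  choose e he1 he2 using fun k => exists_phase (φ (u k))
  have h1 : φ (∑ k ∈ A, e k • u k) = ((∑ k ∈ A, ‖φ (u k)‖ : ℝ) : 𝕜) := by
    simp only [map_sum, map_smul, smul_eq_mul, he2]
  have h2 : ‖φ (∑ k ∈ A, e k • u k)‖ = ∑ k ∈ A, ‖φ (u k)‖ := by
    rw [h1, RCLike.norm_ofReal, abs_of_nonneg (Finset.sum_nonneg fun _ _ => norm_nonneg _)]
  rw [← h2]
  exact (φ.le_opNorm _).trans (mul_le_mul_of_nonneg_left (hu A e he1) (norm_nonneg _))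

theorem weakly_null
    (hu : ∀ (A : Finset ℕ) (e : ℕ → 𝕜), (∀ k, ‖e k‖ ≤ 1) → ‖∑ k ∈ A, e k • u k‖ ≤ √A.card)
    (φ : Z →L[𝕜] 𝕜) : Tendsto (fun k => φ (u k)) atTop (nhds 0) := by
  rw [Metric.tendsto_nhds]
  intro δ hδ
  rw [← Nat.cofinite_eq_atTop, eventually_cofinite]
  by_contra hinf
  have hinf' : {k | ¬dist (φ (u k)) 0 < δ}.Infinite := hinf
  obtain ⟨m, hm⟩ := exists_nat_gt ((‖φ‖ / δ) ^ 2)
  obtain ⟨A, hA, hcard⟩ := hinf'.exists_subset_card_eq m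
  have h1 := sum_norm_functional_le hu φ A
  have h2 : (m : ℝ) * δ ≤ ∑ k ∈ A, ‖φ (u k)‖ := by
    rw [← hcard, ← nsmul_eq_mul]
    apply Finset.card_nsmul_le_sum
    intro k hk
    have := hA hk
    simpa [dist_zero_right] using this
  rw [hcard] at h1
  have hm0 : (0 : ℝ) < m := lt_of_le_of_lt (by positivity) hm
  have hs : 0 < √(m : ℝ) := Real.sqrt_pos.2 hm0
  have h3 : √(m : ℝ) * √(m : ℝ) * δ ≤ ‖φ‖ * √(m : ℝ) := by
    rw [Real.mul_self_sqrt hm0.le]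
    exact h2.trans h1
  have h4 : √(m : ℝ) ≤ ‖φ‖ / δ := by
    rw [le_div_iff₀ hδ]
    nlinarith
  have h5 : (m : ℝ) ≤ (‖φ‖ / δ) ^ 2 := by
    rw [← Real.sqrt_le_left (by positivity)]
    exact h4
  linarith

theorem tendsto_findim
    (hu : ∀ (A : Finset ℕ) (e : ℕ → 𝕜), (∀ k, ‖e k‖ ≤ 1) → ‖∑ k ∈ A, e k • u k‖ ≤ √A.card)
    {F : Type} [NormedAddCommGroup F] [NormedSpace 𝕜 F] [FiniteDimensional 𝕜 F]
    (T : Z →L[𝕜] F) : Tendsto (fun k => T (u k)) atTop (nhds 0) := by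
  let e := (Module.finBasis 𝕜 F).equivFunL
  have h1 : Tendsto (fun k => e (T (u k))) atTop (nhds 0) := by
    rw [tendsto_pi_nhds]
    intro i
    exact weakly_null hu (((ContinuousLinearMap.proj i : (Fin (Module.finrank 𝕜 F) → 𝕜) →L[𝕜] 𝕜).comp
      (e : F →L[𝕜] Fin (Module.finrank 𝕜 F) → 𝕜)).comp T)
  have h2 := (e.symm.continuous.tendsto 0).comp h1
  rw [map_zero] at h2
  refine h2.congr fun k => ?_
  exact e.symm_apply_apply _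

variable {ι : Type} {E : ι → Type} [∀ i, NormedAddCommGroup (E i)] [∀ i, NormedSpace 𝕜 (E i)]

omit [∀ i, NormedSpace 𝕜 (E i)] in
theorem disjoint_estimate (w v : lp E 1) (I : Finset ι) (δ : ℝ) (hw : ‖w‖ - δ ≤ ∑ i ∈ I, ‖w i‖)
    (hv : ∑ i ∈ I, ‖v i‖ ≤ δ) : ‖w‖ + ‖v‖ - 4 * δ ≤ ‖w + v‖ := by
  classical
  let b : ι → ℝ := fun i => if i ∈ I then ‖v i‖ - ‖w i‖ else 0
  have hb : HasSum b (∑ i ∈ I, b i) := hasSum_sum_of_ne_finset_zero (fun i hi => if_neg hi)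
  have hb' : ∑ i ∈ I, b i = ∑ i ∈ I, ‖v i‖ - ∑ i ∈ I, ‖w i‖ := by
    rw [← Finset.sum_sub_distrib]
    exact Finset.sum_congr rfl fun i hi => if_pos hi
  rw [hb'] at hb
  have hsw : HasSum (fun i => ‖w i‖) ‖w‖ := by rw [s1_norm]; exact (s1_summable w).hasSum
  have hsv : HasSum (fun i => ‖v i‖) ‖v‖ := by rw [s1_norm]; exact (s1_summable v).hasSum
  have hswv : HasSum (fun i => ‖(w + v) i‖) ‖w + v‖ := by
    rw [s1_norm]; exact (s1_summable (w + v)).hasSum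
  have h1 : HasSum (fun i => ‖w i‖ + ‖v i‖ - 2 * (‖w i‖ + b i))
      (‖w‖ + ‖v‖ - 2 * (‖w‖ + (∑ i ∈ I, ‖v i‖ - ∑ i ∈ I, ‖w i‖))) :=
    (hsw.add hsv).sub ((hsw.add hb).mul_left 2)
  have h2 := hasSum_le (fun i => ?_) h1 hswv
  · linarith
  · show ‖w i‖ + ‖v i‖ - 2 * (‖w i‖ + b i) ≤ ‖(w + v) i‖
    rw [lp.coeFn_add, Pi.add_apply]
    by_cases h : i ∈ I
    · have hbi : b i = ‖v i‖ - ‖w i‖ := if_pos h
      rw [hbi]
      have := norm_sub_le (w i + v i) (v i)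
      rw [add_sub_cancel_right] at this
      linarith
    · have hbi : b i = 0 := if_neg h
      rw [hbi]
      have := norm_sub_le (w i + v i) (w i)
      rw [add_sub_cancel_left] at this
      linarith

variable [∀ i, FiniteDimensional 𝕜 (E i)]

theorem no_embedding_l1sum
    (hu : ∀ (A : Finset ℕ) (e : ℕ → 𝕜), (∀ k, ‖e k‖ ≤ 1) → ‖∑ k ∈ A, e k • u k‖ ≤ √A.card)
    (hu1 : ∀ k, 1 ≤ ‖u k‖) (s : Z →L[𝕜] lp E 1) (hs : ∀ z, ‖z‖ ≤ ‖s z‖) : False := by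
  classical
  have grow : ∀ m : ℕ, ∃ A : Finset ℕ, A.card = m ∧ (m : ℝ) / 2 ≤ ‖∑ k ∈ A, s (u k)‖ := by
    intro m
    induction m with
    | zero => exact ⟨∅, rfl, by simp⟩
    | succ m ih =>
      obtain ⟨A, hA, hAm⟩ := ih
      set w : lp E 1 := ∑ k ∈ A, s (u k) with hw
      -- a finite set carrying most of `w`
      have h1 : HasSum (fun i => ‖w i‖) ‖w‖ := by rw [s1_norm]; exact (s1_summable w).hasSum
      rw [HasSum, SummationFilter.unconditional_filter, Metric.tendsto_atTop] at h1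
      obtain ⟨I, hI⟩ := h1 (1 / 8) (by norm_num)
      have hI' := hI I le_rfl
      rw [Real.dist_eq] at hI'
      have hI2 : ‖w‖ - 1 / 8 ≤ ∑ i ∈ I, ‖w i‖ := by
        have := (abs_lt.1 hI').1
        linarith
      -- a late vector
      have h2 : Tendsto (fun k => ∑ i ∈ I, ‖(s (u k)) i‖) atTop (nhds 0) := by
        have : Tendsto (fun k => ∑ i ∈ I, ‖(s (u k)) i‖) atTop (nhds (∑ i ∈ I, ‖(0 : E i)‖)) := by
          apply tendsto_finsetSum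
          intro i _
          exact (tendsto_findim hu ((ev 𝕜 E i).comp s)).norm
        simpa using this
      have h3 : ∀ᶠ k in atTop, ∑ i ∈ I, ‖(s (u k)) i‖ < 1 / 8 :=
        h2.eventually_lt_const (by norm_num)
      have h4 : ∀ᶠ k in atTop, k ∉ A := by
        rw [← Nat.cofinite_eq_atTop, eventually_cofinite]
        simp
      obtain ⟨k, hk3, hk4⟩ := (h3.and h4).exists
      refine ⟨insert k A, by rw [Finset.card_insert_of_notMem hk4, hA], ?_⟩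
      rw [Finset.sum_insert hk4, ← hw, add_comm (s (u k)) w]
      have h5 := disjoint_estimate w (s (u k)) I (1 / 8) hI2 hk3.le
      have h6 : 1 ≤ ‖s (u k)‖ := (hu1 k).trans (hs _)
      push_cast
      linarith
  obtain ⟨m, hm⟩ := exists_nat_gt ((2 * ‖s‖) ^ 2)
  obtain ⟨A, hA, hAm⟩ := grow m
  have hm0 : (0 : ℝ) < m := lt_of_le_of_lt (by positivity) hm
  have hs0 : 0 < √(m : ℝ) := Real.sqrt_pos.2 hm0
  have h1 : ‖∑ k ∈ A, s (u k)‖ ≤ ‖s‖ * √(m : ℝ) := by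
    have e1 : ∑ k ∈ A, s (u k) = s (∑ k ∈ A, (1 : 𝕜) • u k) := by simp
    rw [e1]
    refine (s.le_opNorm _).trans (mul_le_mul_of_nonneg_left ?_ (norm_nonneg _))
    have := hu A (fun _ => 1) (fun _ => by simp)
    rwa [hA] at this
  have h2 : √(m : ℝ) * √(m : ℝ) / 2 ≤ ‖s‖ * √(m : ℝ) := by
    rw [Real.mul_self_sqrt hm0.le]
    exact hAm.trans h1
  have h3 : √(m : ℝ) ≤ 2 * ‖s‖ := by
    by_contra h
    push Not at h
    nlinarith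
  have h5 : (m : ℝ) ≤ (2 * ‖s‖) ^ 2 := by
    rw [← Real.sqrt_le_left (by positivity)]
    exact h3
  linarith

end abstract

/-! ### the dual of `ℓ²` -/

/-- `ℓ²` -/
abbrev l2 (𝕜 : Type) [RCLike 𝕜] : Type := lp (fun _ : ℕ => 𝕜) 2

/-- the coordinate functionals -/
noncomputable def cf (𝕜 : Type) [RCLike 𝕜] (k : ℕ) : l2 𝕜 →L[𝕜] 𝕜 :=
  lp.evalCLM 𝕜 (fun _ : ℕ => 𝕜) 2 k

theorem cf_apply (k : ℕ) (x : l2 𝕜) : cf 𝕜 k x = x k := rfl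

theorem one_le_norm_cf (k : ℕ) : 1 ≤ ‖cf 𝕜 k‖ := by
  have h1 := (cf 𝕜 k).le_opNorm (lp.single 2 k (1 : 𝕜))
  rw [lp.norm_single (by simp), cf_apply, lp.single_apply_self, norm_one, mul_one] at h1
  exact h1

theorem norm_sum_cf (A : Finset ℕ) (e : ℕ → 𝕜) (he : ∀ k, ‖e k‖ ≤ 1) :
    ‖∑ k ∈ A, e k • cf 𝕜 k‖ ≤ √A.card := by
  apply ContinuousLinearMap.opNorm_le_bound _ (Real.sqrt_nonneg _)
  intro x
  have h1 : (∑ k ∈ A, e k • cf 𝕜 k) x = ∑ k ∈ A, e k * x k := by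
    rw [sum_apply]
    rfl
  have h2 : ∑ k ∈ A, ‖x k‖ ^ 2 ≤ ‖x‖ ^ 2 := by
    have := lp.sum_rpow_le_norm_rpow (E := fun _ : ℕ => 𝕜) (p := 2) (by simp) x A
    simpa using this
  have h3 : (∑ k ∈ A, ‖x k‖) ^ 2 ≤ A.card * ∑ k ∈ A, ‖x k‖ ^ 2 := sq_sum_le_card_mul_sum_sq
  rw [h1]
  have h4 : ‖∑ k ∈ A, e k * x k‖ ≤ ∑ k ∈ A, ‖x k‖ := by
    refine (norm_sum_le _ _).trans (Finset.sum_le_sum fun k _ => ?_)
    rw [norm_mul]
    exact mul_le_of_le_one_left (norm_nonneg _) (he k)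
  refine h4.trans ?_
  refine (sq_le_sq₀ (by positivity) (by positivity)).1 ?_
  rw [mul_pow, Real.sq_sqrt (by positivity)]
  exact h3.trans (mul_le_mul_of_nonneg_left h2 (by positivity))

/-- the base case -/
theorem exists_base (𝕜 : Type) [RCLike 𝕜] : ∃ X : Ban 𝕜, Gm 1 X ∧ ¬ Gm 0 X := by
  obtain ⟨X, i, hi⟩ := exists_can (⟨l2 𝕜 →L[𝕜] 𝕜⟩ : Ban 𝕜)
  refine ⟨X, ⟨⟨FSum 𝕜 (l2 𝕜 →L[𝕜] 𝕜)⟩, ⟨l2 𝕜 →L[𝕜] 𝕜⟩, i, sumOp 𝕜 (l2 𝕜 →L[𝕜] 𝕜), hi,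
    complBidual_sum, complBidual_dual _⟩, fun h => ?_⟩
  obtain ⟨s, hs⟩ := hi.split h
  refine no_embedding_l1sum (u := fun k => cf 𝕜 k) norm_sum_cf one_le_norm_cf s (fun z => ?_)
  calc ‖z‖ = ‖sumOp 𝕜 (l2 𝕜 →L[𝕜] 𝕜) (s z)‖ := by rw [hs]
    _ ≤ ‖s z‖ := sumOp_norm_le _

end Pool.Agent.Helper56.Pid
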