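import Mathlib
import Pool.Agent.Helper56.Pid.Basic

set_option autoImplicit false

/-!
# Pure-injective resolutions and the recursive classes
-/

open Pool.Agent.Helper69.Fd NormedSpace

namespace Pool.Agent.Helper56.Pid

variable {𝕜 : Type} [RCLike 𝕜]

/-! ### from resolutions to the recursive classes -/

section

variable {X : Type} [NormedAddCommGroup X] [NormedSpace 𝕜 X]

/-- the first cokernel of a coresolution -/
theorem Coresolution.shift (R : Coresolution 𝕜 X) :
    ∃ (C : Type) (_ : NormedAddCommGroup C) (_ : NormedSpace 𝕜 C) (_ : CompleteSpace C)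
      (q : R.Q 0 →L[𝕜] C) (δ : C →L[𝕜] R.Q 1), SES R.η q ∧ Function.Injective δ ∧
      (∀ x, δ (q x) = R.d 0 x) ∧ ∀ x, R.d 1 x = 0 ↔ ∃ y, δ y = x := by
  let N : Submodule 𝕜 (R.Q 1) := LinearMap.ker (R.d 1 : R.Q 1 →ₗ[𝕜] R.Q 2)
  have hNc : IsClosed (N : Set (R.Q 1)) := (R.d 1).isClosed_ker
  have hN : CompleteSpace N := hNc.completeSpace_coe
  have hmem : ∀ x, R.d 0 x ∈ N := fun x => (R.exact 0 _).2 ⟨x, rfl⟩
  refine ⟨N, inferInstance, inferInstance, hN, (R.d 0).codRestrict N hmem, N.subtypeL,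
    ⟨R.inj, fun b => ?_, fun y => ?_⟩, Subtype.val_injective, fun x => rfl, fun x => ?_⟩
  · rw [← R.exact_zero b]
    constructor
    · intro h
      exact congrArg Subtype.val h
    · intro h
      exact Subtype.ext h
  · obtain ⟨x, hx⟩ := (R.exact 0 y.1).1 y.2
    exact ⟨x, Subtype.ext hx⟩
  · constructor
    · intro h
      exact ⟨⟨x, h⟩, rfl⟩
    · rintro ⟨y, rfl⟩
      exact y.2

/-- the shifted coresolution -/
def Coresolution.tail (R : Coresolution 𝕜 X) {C : Type} [NormedAddCommGroup C] [NormedSpace 𝕜 C]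
    (δ : C →L[𝕜] R.Q 1) (h1 : Function.Injective δ) (h2 : ∀ x, R.d 1 x = 0 ↔ ∃ y, δ y = x) :
    Coresolution 𝕜 C where
  Q := fun i => R.Q (i + 1)
  d := fun i => R.d (i + 1)
  η := δ
  inj := h1
  exact_zero := h2
  exact := fun i x => R.exact (i + 1) x

end

theorem gm_of_hasPidRes : ∀ (n : ℕ) (X : Ban 𝕜) (R : Coresolution 𝕜 X.C),
    DualContractible R → (∀ i, ComplBidual 𝕜 (R.Q i)) →
    (∀ i, n < i → Subsingleton (R.Q i)) → Gm n X
  | 0, X, R, _, hQ, hn => by
    have hsurj : Function.Surjective R.η := by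
      intro x
      have := hn 1 zero_lt_one
      exact (R.exact_zero x).1 (Subsingleton.elim _ _)
    have e : X.C ≃L[𝕜] R.Q 0 := ContinuousLinearEquiv.ofBijective R.η
      (LinearMap.ker_eq_bot.2 R.inj) (LinearMap.range_eq_top.2 hsurj)
    exact ComplBidual.iso (hQ 0) e.symm
  | n + 1, X, R, ⟨h0, h, H1, H2, H3⟩, hQ, hn => by
    obtain ⟨C, i1, i2, i3, q, δ, hq, h1, h2, h3⟩ := R.shift
    refine ⟨⟨R.Q 0⟩, ⟨C⟩, R.η, q, ⟨hq, h0, fun f a => ?_⟩, hQ 0,
      gm_of_hasPidRes n ⟨C⟩ (R.tail δ h1 h3) ⟨(h 0).comp (pre q), fun i => h (i + 1), fun g => ?_,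
        fun f => ?_, fun i f => H3 (i + 1) f⟩ (fun i => hQ (i + 1))
        (fun i hi => hn (i + 1) (by omega))⟩
    · exact congrArg (fun f => f a) (H1 f)
    · ext c
      obtain ⟨x, rfl⟩ := hq.surj c
      have e1 := congrArg (fun f => f x) (H2 (g.comp q))
      have e2 : (g.comp q).comp R.η = 0 := by
        ext a
        show g (q (R.η a)) = 0
        rw [(hq.ex _).2 ⟨a, rfl⟩, map_zero]
      rw [e2, map_zero, zero_add] at e1
      show h 0 (g.comp q) (δ (q x)) = g (q x)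
      rw [h2]
      exact e1
    · have e1 := H3 0 f
      have e2 : (pre q) (f.comp δ) = f.comp (R.d 0) := by
        ext x
        show f (δ (q x)) = f (R.d 0 x)
        rw [h2]
      show h 0 ((pre q) (f.comp δ)) + (h 1 f).comp (R.d 1) = f
      rw [e2]
      exact e1

theorem HasPidRes.gm {n : ℕ} {X : Type} [NormedAddCommGroup X] [NormedSpace 𝕜 X]
    [CompleteSpace X] (h : HasPidRes 𝕜 X n) : Gm n (⟨X⟩ : Ban 𝕜) := by
  obtain ⟨R, h1, h2, h3⟩ := h
  exact gm_of_hasPidRes n ⟨X⟩ R h1 h2 h3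

theorem HasPidRes.mono {X : Type} [NormedAddCommGroup X] [NormedSpace 𝕜 X] {m n : ℕ}
    (hmn : m ≤ n) (h : HasPidRes 𝕜 X m) : HasPidRes 𝕜 X n := by
  obtain ⟨R, h1, h2, h3⟩ := h
  exact ⟨R, h1, h2, fun i hi => h3 i (hmn.trans_lt hi)⟩

/-! ### splicing -/

section splice

variable {X : Type} [NormedAddCommGroup X] [NormedSpace 𝕜 X]
  {C : Type} [NormedAddCommGroup C] [NormedSpace 𝕜 C]

/-- the terms of the spliced coresolution -/
def spP (R : Coresolution 𝕜 C) (Q : Type) : ℕ → Type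
  | 0 => Q
  | i + 1 => R.Q i

variable {Q : Type} [NormedAddCommGroup Q] [NormedSpace 𝕜 Q] [CompleteSpace Q]

@[instance_reducible] instance spNg (R : Coresolution 𝕜 C) : ∀ i, NormedAddCommGroup (spP R Q i)
  | 0 => inferInstanceAs (NormedAddCommGroup Q)
  | i + 1 => inferInstanceAs (NormedAddCommGroup (R.Q i))

@[instance_reducible] instance spNs (R : Coresolution 𝕜 C) : ∀ i, NormedSpace 𝕜 (spP R Q i)
  | 0 => inferInstanceAs (NormedSpace 𝕜 Q)
  | i + 1 => inferInstanceAs (NormedSpace 𝕜 (R.Q i))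

instance spCs (R : Coresolution 𝕜 C) : ∀ i, CompleteSpace (spP R Q i)
  | 0 => inferInstanceAs (CompleteSpace Q)
  | i + 1 => inferInstanceAs (CompleteSpace (R.Q i))

/-- the differentials -/
def spD (R : Coresolution 𝕜 C) (q : Q →L[𝕜] C) : ∀ i, spP R Q i →L[𝕜] spP R Q (i + 1)
  | 0 => (R.η.comp q : Q →L[𝕜] R.Q 0)
  | i + 1 => (R.d i : R.Q i →L[𝕜] R.Q (i + 1))

/-- the spliced coresolution -/
def splice (R : Coresolution 𝕜 C) {i : X →L[𝕜] Q} {q : Q →L[𝕜] C} (h : SES i q) :
    Coresolution 𝕜 X where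
  Q := spP R Q
  d := spD R q
  η := (i : X →L[𝕜] Q)
  inj := h.inj
  exact_zero := fun x => by
    constructor
    · intro hx
      have h1 : R.η (q x) = 0 := hx
      exact (h.ex x).1 (R.inj (by rw [h1, map_zero]))
    · rintro ⟨y, rfl⟩
      show R.η (q (i y)) = 0
      rw [(h.ex _).2 ⟨y, rfl⟩, map_zero]
  exact := fun j x => by
    cases j with
    | zero =>
      constructor
      · intro hx
        obtain ⟨c, hc⟩ := (R.exact_zero x).1 hx
        obtain ⟨b, rfl⟩ := h.surj c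
        exact ⟨(b : Q), hc⟩
      · rintro ⟨b, hb⟩
        exact (R.exact_zero x).2 ⟨q b, hb⟩
    | succ j => exact R.exact j x

/-- the homotopy of the spliced coresolution -/
def spH (R : Coresolution 𝕜 C) (t : (Q →L[𝕜] 𝕜) →L[𝕜] (R.Q 0 →L[𝕜] 𝕜))
    (h : ∀ i, (R.Q i →L[𝕜] 𝕜) →L[𝕜] (R.Q (i + 1) →L[𝕜] 𝕜)) :
    ∀ i, (spP R Q i →L[𝕜] 𝕜) →L[𝕜] (spP R Q (i + 1) →L[𝕜] 𝕜)
  | 0 => t
  | i + 1 => h i

end splice

theorem hasPidRes_of_gm : ∀ (n : ℕ) (X : Ban 𝕜), Gm n X → HasPidRes 𝕜 X.C n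
  | 0, X, hX => by
    let Z : Coresolution 𝕜 PUnit :=
      { Q := fun _ => PUnit
        d := fun _ => 0
        η := 0
        inj := fun _ _ _ => Subsingleton.elim _ _
        exact_zero := fun x => ⟨fun _ => ⟨0, Subsingleton.elim _ _⟩, fun _ =>
          Subsingleton.elim (α := PUnit) _ _⟩
        exact := fun _ x => ⟨fun _ => ⟨0, Subsingleton.elim _ _⟩, fun _ =>
          Subsingleton.elim (α := PUnit) _ _⟩ }
    have hid : SES (ContinuousLinearMap.id 𝕜 X.C) (0 : X.C →L[𝕜] PUnit) :=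
      ⟨fun a b h => h, fun b => ⟨fun _ => ⟨b, rfl⟩, fun _ => rfl⟩,
        fun y => ⟨0, Subsingleton.elim _ _⟩⟩
    refine ⟨splice Z hid, ⟨ContinuousLinearMap.id 𝕜 _, fun _ => 0, fun x => ?_, fun f => ?_,
      fun i f => ?_⟩, fun i => ?_, fun i hi => ?_⟩
    · rfl
    · show f + 0 = f
      rw [add_zero]
    · ext x
      have : x = 0 := Subsingleton.elim (α := PUnit) _ _
      rw [this, map_zero, map_zero]
    · cases i with
      | zero => exact hX
      | succ i => exact (complBidual_of_subsingleton : ComplBidual 𝕜 PUnit)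
    · cases i with
      | zero => exact absurd hi (by omega)
      | succ i => exact (inferInstance : Subsingleton PUnit)
  | n + 1, X, ⟨Q, C, i, q, hs, hQ, hC⟩ => by
    obtain ⟨R, ⟨h0, h, H1, H2, H3⟩, hR1, hR2⟩ := hasPidRes_of_gm n C hC
    obtain ⟨E, hE⟩ := hs.ext
    have hdual : SES (pre q) (pre i) := by
      refine ⟨fun f g hfg => ?_, fun b => ⟨fun hb => ?_, ?_⟩, fun f => ⟨E f, ?_⟩⟩
      · ext c
        obtain ⟨b, rfl⟩ := hs.ses.surj c
        exact congrArg (fun f => f b) hfg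
      · obtain ⟨f, hf⟩ := factor q hs.ses.surj b (fun x hx => by
          obtain ⟨a, rfl⟩ := (hs.ses.ex x).1 hx
          exact congrArg (fun f => f a) hb)
        exact ⟨f, by ext x; exact hf x⟩
      · rintro ⟨f, rfl⟩
        ext a
        show f (q (i a)) = 0
        rw [(hs.ses.ex _).2 ⟨a, rfl⟩, map_zero]
      · ext a
        exact hE f a
    obtain ⟨θ, hθ⟩ := colift hdual
      (ContinuousLinearMap.id 𝕜 (Q.C →L[𝕜] 𝕜) - E.comp (pre i)) (fun f => by
        ext a
        show f (i a) - E (pre i f) (i a) = 0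
        rw [hE, pre_apply, sub_self])
    have hθ' : ∀ f x, θ f (q x) = f x - E (f.comp i) x := fun f x =>
      congrArg (fun g => g x) (hθ f)
    have key1 : ∀ (f : Q.C →L[𝕜] 𝕜) (x : Q.C),
        E (f.comp i) x + h0 (θ f) (R.η (q x)) = f x := by
      intro f x
      have e1 := congrArg (fun g => g (q x)) (H1 (θ f))
      have e2 : h0 (θ f) (R.η (q x)) = θ f (q x) := e1
      rw [e2, hθ']
      abel
    have key2 : ∀ f : R.Q 0 →L[𝕜] 𝕜,
        h0 (θ ((f.comp R.η).comp q)) + (h 0 f).comp (R.d 0) = f := by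
      intro f
      have e2 : θ ((f.comp R.η).comp q) = f.comp R.η := by
        ext c
        obtain ⟨x, rfl⟩ := hs.ses.surj c
        rw [hθ']
        have e3 : ((f.comp R.η).comp q).comp i = 0 := by
          ext a
          show f (R.η (q (i a))) = 0
          rw [(hs.ses.ex _).2 ⟨a, rfl⟩, map_zero, map_zero]
        rw [e3, map_zero]
        simp
      rw [e2]
      exact H2 f
    refine ⟨splice R hs.ses, ⟨E, spH R (h0.comp θ) h, fun x => ?_, fun f => ?_,
      fun j f => ?_⟩, fun j => ?_, fun j hj => ?_⟩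
    · ext a
      exact hE x a
    · ext x
      exact key1 f x
    · cases j with
      | zero => exact key2 f
      | succ j => exact H3 j f
    · cases j with
      | zero => exact hQ
      | succ j => exact hR1 j
    · cases j with
      | zero => exact absurd hj (by omega)
      | succ j => exact hR2 j (by omega)

section inf

variable {X : Type} [NormedAddCommGroup X] [NormedSpace 𝕜 X]

theorem pid_eq_of {n : ℕ} (h : HasPidRes 𝕜 X n) (h' : ∀ m, m < n → ¬ HasPidRes 𝕜 X m) :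
    pid 𝕜 X = n := by
  unfold pid
  apply le_antisymm
  · exact iInf₂_le n h
  · refine le_iInf₂ fun m hm => ?_
    by_contra h1
    push Not at h1
    exact h' m (by exact_mod_cast h1) hm

theorem pid_eq_top (h : ∀ m, ¬ HasPidRes 𝕜 X m) : pid 𝕜 X = ⊤ := by
  unfold pid
  rw [iInf₂_eq_top]
  exact fun m hm => absurd hm (h m)

end inf

end Pool.Agent.Helper56.Pid
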