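import Mathlib
import Pool.Agent.Helper56.Pid.Base
import Pool.Agent.Helper56.Pid.Res

set_option autoImplicit false

/-!
# All values of the pure-injective dimension occur
-/

open Pool.Agent.Helper69.Fd NormedSpace Filter

namespace Pool.Agent.Helper56.Pid

/-- the spaces `X_n` -/
theorem exists_gm (𝕜 : Type) [RCLike 𝕜] : ∀ n : ℕ, ∃ X : Ban 𝕜, Gm (n + 1) X ∧ ¬ Gm n X
  | 0 => exists_base 𝕜
  | n + 1 => by
    obtain ⟨Z, hZ1, hZ2⟩ := exists_gm 𝕜 n
    obtain ⟨X, i, hi⟩ := exists_can Z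
    have hY : ComplBidual 𝕜 (FSum 𝕜 Z.C) := complBidual_sum
    exact ⟨X, ⟨⟨FSum 𝕜 Z.C⟩, Z, i, sumOp 𝕜 Z.C, hi, hY, hZ1⟩,
      fun h => hZ2 (Gm.syzygy n X ⟨FSum 𝕜 Z.C⟩ Z i (sumOp 𝕜 Z.C) hi hY h)⟩

theorem exists_pid_succ (𝕜 : Type) [RCLike 𝕜] (n : ℕ) :
    ∃ (X : Type) (_ : NormedAddCommGroup X) (_ : NormedSpace 𝕜 X) (_ : CompleteSpace X),
      pid 𝕜 X = (n + 1 : ℕ) := by
  obtain ⟨X, h1, h2⟩ := exists_gm 𝕜 n
  refine ⟨X.C, inferInstance, inferInstance, inferInstance, ?_⟩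
  apply pid_eq_of (hasPidRes_of_gm (n + 1) X h1)
  intro m hm hm'
  exact h2 (hm'.mono (Nat.lt_succ_iff.1 hm)).gm

theorem exists_pid_zero (𝕜 : Type) [RCLike 𝕜] :
    ∃ (X : Type) (_ : NormedAddCommGroup X) (_ : NormedSpace 𝕜 X) (_ : CompleteSpace X),
      pid 𝕜 X = (0 : ℕ) := by
  refine ⟨PUnit, inferInstance, inferInstance, inferInstance, ?_⟩
  apply pid_eq_of (hasPidRes_of_gm 0 (⟨PUnit⟩ : Ban 𝕜)
    (complBidual_of_subsingleton : ComplBidual 𝕜 PUnit))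
  intro m hm
  exact absurd hm (by omega)

theorem exists_pid_top (𝕜 : Type) [RCLike 𝕜] :
    ∃ (X : Type) (_ : NormedAddCommGroup X) (_ : NormedSpace 𝕜 X) (_ : CompleteSpace X),
      pid 𝕜 X = ⊤ := by
  choose X h1 h2 using exists_gm 𝕜
  refine ⟨lp (fun n => (X n).C) 1, inferInstance, inferInstance, inferInstance,
    pid_eq_top fun m hm => ?_⟩
  refine h2 m (Gm.retract m ⟨lp (fun n => (X n).C) 1⟩ (X m)
    (lp.singleContinuousLinearMap 𝕜 (fun n => (X n).C) 1 m)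
    (lp.evalCLM 𝕜 (fun n => (X n).C) 1 m)
    (fun y => lp.single_apply_self (E := fun n => (X n).C) 1 m y) hm.gm)

/-- every value of the pure-injective dimension occurs -/
theorem exists_pid (𝕜 : Type) [RCLike 𝕜] (n : ℕ∞) :
    ∃ (X : Type) (_ : NormedAddCommGroup X) (_ : NormedSpace 𝕜 X) (_ : CompleteSpace X),
      pid 𝕜 X = n := by
  induction n using ENat.recTopCoe with
  | top => exact exists_pid_top 𝕜
  | coe n =>
    cases n with
    | zero => exact exists_pid_zero 𝕜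
    | succ n => exact exists_pid_succ 𝕜 n

end Pool.Agent.Helper56.Pid
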